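import Pool.Agent.helper55.NM.Spec

set_option autoImplicit false

namespace Pool.Agent.helper99.NM

open Pool.Agent.NM Finset Nat

theorem BIN_a (q k : ℕ) (R : ℝ) (hR : 0 ≤ R) (hkq : k ≤ q) (h : (k : ℝ) ≤ R * ((q : ℝ) - k))
    (s : ℕ) (hs : s + 1 ≤ k) : (q.choose s : ℝ) ≤ R * (q.choose (s + 1) : ℝ) := by
  have h1 : q.choose (s + 1) * (s + 1) = q.choose s * (q - s) := Nat.choose_succ_right_eq q s
  have h2 : (q.choose (s + 1) : ℝ) * ((s : ℝ) + 1) = (q.choose s : ℝ) * ((q : ℝ) - s) := by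
    have h0 : ((q - s : ℕ) : ℝ) = (q : ℝ) - s := by
      rw [Nat.cast_sub (by omega)]
    rw [← h0]
    exact_mod_cast h1
  have hs' : (s : ℝ) + 1 ≤ k := by exact_mod_cast hs
  have h3 : 0 ≤ (q.choose s : ℝ) := Nat.cast_nonneg _
  have h4 : (s : ℝ) + 1 ≤ R * ((q : ℝ) - s) := by
    have h5 : R * ((q : ℝ) - k) ≤ R * ((q : ℝ) - s) := mul_le_mul_of_nonneg_left (by linarith) hR
    linarith
  have h5 : (q.choose s : ℝ) * ((s : ℝ) + 1) ≤ (R * (q.choose (s + 1) : ℝ)) * ((s : ℝ) + 1) := by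
    calc (q.choose s : ℝ) * ((s : ℝ) + 1) ≤ (q.choose s : ℝ) * (R * ((q : ℝ) - s)) :=
          mul_le_mul_of_nonneg_left h4 h3
      _ = R * ((q.choose s : ℝ) * ((q : ℝ) - s)) := by ring
      _ = R * ((q.choose (s + 1) : ℝ) * ((s : ℝ) + 1)) := by rw [h2]
      _ = _ := by ring
  exact le_of_mul_le_mul_right h5 (by positivity)

theorem BIN_b (q k : ℕ) (R : ℝ) (hR : 0 ≤ R) (hkq : k ≤ q) (h : (k : ℝ) ≤ R * ((q : ℝ) - k))
    (d : ℕ) : ∀ s : ℕ, s + d ≤ k → (q.choose s : ℝ) ≤ R ^ d * (q.choose (s + d) : ℝ) := by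
  induction d with
  | zero => intro s _; simp
  | succ d ih =>
    intro s hs
    have h1 := ih s (by omega)
    have h2 := BIN_a q k R hR hkq h (s + d) (by omega)
    calc (q.choose s : ℝ) ≤ R ^ d * (q.choose (s + d) : ℝ) := h1
      _ ≤ R ^ d * (R * (q.choose (s + d + 1) : ℝ)) :=
        mul_le_mul_of_nonneg_left h2 (pow_nonneg hR d)
      _ = R ^ (d + 1) * (q.choose (s + (d + 1)) : ℝ) := by
        rw [pow_succ, mul_assoc, ← add_assoc]

theorem BIN_c (p q k i : ℕ) (hi : i ≤ p) (hik : i ≤ k) (hk : k ≤ q) :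
    q.choose (k - i) * (p + q).descFactorial p =
      k.descFactorial i * (p + q - k).descFactorial (p - i) * (p + q).choose k := by
  have e1 : q ! * (p + q).descFactorial p = (p + q)! := by
    have h := Nat.factorial_mul_descFactorial (show p ≤ p + q by omega)
    rwa [show p + q - p = q by omega] at h
  have e2 : (k - i)! * k.descFactorial i = k ! := Nat.factorial_mul_descFactorial hik
  have e3 : (q - (k - i))! * (p + q - k).descFactorial (p - i) = (p + q - k)! := by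
    have h := Nat.factorial_mul_descFactorial (show p - i ≤ p + q - k by omega)
    rwa [show p + q - k - (p - i) = q - (k - i) by omega] at h
  have e4 : q.choose (k - i) * (k - i)! * (q - (k - i))! = q ! :=
    Nat.choose_mul_factorial_mul_factorial (by omega)
  have e5 : (p + q).choose k * k ! * (p + q - k)! = (p + q)! :=
    Nat.choose_mul_factorial_mul_factorial (by omega)
  have hpos : 0 < (k - i)! * (q - (k - i))! :=
    Nat.mul_pos (Nat.factorial_pos _) (Nat.factorial_pos _)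
  apply Nat.eq_of_mul_eq_mul_left hpos
  calc (k - i)! * (q - (k - i))! * (q.choose (k - i) * (p + q).descFactorial p)
      = (q.choose (k - i) * (k - i)! * (q - (k - i))!) * (p + q).descFactorial p := by ring
    _ = (p + q)! := by rw [e4, e1]
    _ = (p + q).choose k * ((k - i)! * k.descFactorial i) *
          ((q - (k - i))! * (p + q - k).descFactorial (p - i)) := by rw [e2, e3, e5]
    _ = _ := by ring

theorem BIN_d (p q : ℕ) (hn : 0 < p + q) :
    (1 - (p : ℝ) ^ 2 / ((p : ℝ) + q)) * ((p : ℝ) + q) ^ p ≤ ((p + q).descFactorial p : ℝ) := by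
  have hn' : (0 : ℝ) < (p : ℝ) + q := by exact_mod_cast hn
  have h1 : (q : ℝ) ^ p ≤ ((p + q).descFactorial p : ℝ) := by
    have h := Nat.pow_sub_le_descFactorial (p + q) p
    have h2 : q ^ p ≤ (p + q + 1 - p) ^ p := Nat.pow_le_pow_left (by omega) p
    exact_mod_cast le_trans h2 h
  have h2 : 1 + (p : ℝ) * (-((p : ℝ) / ((p : ℝ) + q))) ≤
      (1 + -((p : ℝ) / ((p : ℝ) + q))) ^ p := by
    apply one_add_mul_le_pow
    have h0 : (p : ℝ) / ((p : ℝ) + q) ≤ 1 := by
      rw [div_le_one hn']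
      linarith [Nat.cast_nonneg (α := ℝ) q]
    linarith
  have h3 : (1 + -((p : ℝ) / ((p : ℝ) + q))) * ((p : ℝ) + q) = q := by
    rw [add_mul, neg_mul, div_mul_cancel₀ _ hn'.ne']
    ring
  calc (1 - (p : ℝ) ^ 2 / ((p : ℝ) + q)) * ((p : ℝ) + q) ^ p
      = (1 + (p : ℝ) * (-((p : ℝ) / ((p : ℝ) + q)))) * ((p : ℝ) + q) ^ p := by ring
    _ ≤ (1 + -((p : ℝ) / ((p : ℝ) + q))) ^ p * ((p : ℝ) + q) ^ p :=
        mul_le_mul_of_nonneg_right h2 (by positivity)
    _ = (q : ℝ) ^ p := by rw [← mul_pow, h3]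
    _ ≤ _ := h1

theorem BIN : BIN_stmt := by
  intro p q k i d R hi hid hk hpn hR hkR
  have hn : 0 < p + q := by omega
  have hn' : (0 : ℝ) < (p : ℝ) + q := by exact_mod_cast hn
  have h1 : (q.choose (k - i - d) : ℝ) ≤ R ^ d * (q.choose (k - i) : ℝ) := by
    have h := BIN_b q k R hR hk hkR d (k - i - d) (by omega)
    rwa [show k - i - d + d = k - i by omega] at h
  have hc : 0 ≤ 1 - (p : ℝ) ^ 2 / ((p : ℝ) + q) := by
    rw [sub_nonneg, div_le_one hn']
    exact_mod_cast hpn.le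
  have h2 : (1 - (p : ℝ) ^ 2 / ((p : ℝ) + q)) * (q.choose (k - i) : ℝ) ≤
      ((k : ℝ) / ((p : ℝ) + q)) ^ i * (1 - (k : ℝ) / ((p : ℝ) + q)) ^ (p - i) *
        ((p + q).choose k : ℝ) := by
    have e := BIN_c p q k i hi (by omega) hk
    have e' : (q.choose (k - i) : ℝ) * ((p + q).descFactorial p : ℝ) =
        (k.descFactorial i : ℝ) * ((p + q - k).descFactorial (p - i) : ℝ) *
          ((p + q).choose k : ℝ) := by
      exact_mod_cast e
    have f1 : (k.descFactorial i : ℝ) ≤ (k : ℝ) ^ i := by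
      exact_mod_cast Nat.descFactorial_le_pow k i
    have f2 : ((p + q - k).descFactorial (p - i) : ℝ) ≤ ((p : ℝ) + q - k) ^ (p - i) := by
      have h := Nat.descFactorial_le_pow (p + q - k) (p - i)
      have h' : ((p + q - k : ℕ) : ℝ) = (p : ℝ) + q - k := by
        rw [Nat.cast_sub (by omega)]
        push_cast
        ring
      rw [← h']
      exact_mod_cast h
    have hP : (0 : ℝ) < ((p : ℝ) + q) ^ p := by positivity
    refine le_of_mul_le_mul_right ?_ hP
    calc (1 - (p : ℝ) ^ 2 / ((p : ℝ) + q)) * (q.choose (k - i) : ℝ) * ((p : ℝ) + q) ^ p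
        = (q.choose (k - i) : ℝ) *
            ((1 - (p : ℝ) ^ 2 / ((p : ℝ) + q)) * ((p : ℝ) + q) ^ p) := by ring
      _ ≤ (q.choose (k - i) : ℝ) * ((p + q).descFactorial p : ℝ) :=
          mul_le_mul_of_nonneg_left (BIN_d p q hn) (Nat.cast_nonneg _)
      _ = (k.descFactorial i : ℝ) * ((p + q - k).descFactorial (p - i) : ℝ) *
            ((p + q).choose k : ℝ) := e'
      _ ≤ (k : ℝ) ^ i * ((p : ℝ) + q - k) ^ (p - i) * ((p + q).choose k : ℝ) := by
          apply mul_le_mul_of_nonneg_right _ (Nat.cast_nonneg _)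
          exact mul_le_mul f1 f2 (Nat.cast_nonneg _) (by positivity)
      _ = _ := by
          have g1 : (1 - (k : ℝ) / ((p : ℝ) + q)) = ((p : ℝ) + q - k) / ((p : ℝ) + q) := by
            rw [sub_div, div_self hn'.ne']
          have g2 : ((p : ℝ) + q) ^ p = ((p : ℝ) + q) ^ i * ((p : ℝ) + q) ^ (p - i) := by
            rw [← pow_add, Nat.add_sub_cancel' hi]
          rw [g1, g2, div_pow, div_pow]
          field_simp
  calc (1 - (p : ℝ) ^ 2 / ((p : ℝ) + q)) * (q.choose (k - i - d) : ℝ)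
      ≤ (1 - (p : ℝ) ^ 2 / ((p : ℝ) + q)) * (R ^ d * (q.choose (k - i) : ℝ)) :=
        mul_le_mul_of_nonneg_left h1 hc
    _ = R ^ d * ((1 - (p : ℝ) ^ 2 / ((p : ℝ) + q)) * (q.choose (k - i) : ℝ)) := by ring
    _ ≤ R ^ d * (((k : ℝ) / ((p : ℝ) + q)) ^ i * (1 - (k : ℝ) / ((p : ℝ) + q)) ^ (p - i) *
          ((p + q).choose k : ℝ)) := mul_le_mul_of_nonneg_left h2 (pow_nonneg hR d)
    _ = _ := by ring

end Pool.Agent.helper99.NM

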